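import Pool.Agent.H.MP_e22ce5_an.Defs

namespace Pool.Agent.H.MP_e22ce5_an

open Filter Topology Set Real UniformSpace

abbrev VV := BoundedContinuousFunction ℕ ℝ

noncomputable def LL (n : ℕ) : ℝ := 2 * log (n + 2)

lemma LL_one (n : ℕ) : 1 ≤ LL n := by
  have : log 2 ≤ log (n + 2) := log_le_log two_pos (by simp)
  unfold LL
  linarith [log_two_gt_d9]

lemma LL_sum : Summable fun n => exp (-LL n) := by
  refine ((summable_nat_add_iff 2).2 (summable_nat_pow_inv.2 one_lt_two)).congr fun n => ?_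
  rw [LL, exp_neg, mul_comm, exp_mul, exp_log (by positivity)]
  simp

lemma cosh_sum {w : ℕ → ℝ} (hw : Summable w) (h0 : ∀ n, 0 ≤ w n) (v : VV) :
    Summable fun n => w n * cosh (v n) :=
  (hw.mul_right (cosh ‖v‖)).of_nonneg_of_le (fun n => mul_nonneg (h0 n) (cosh_pos _).le) fun n =>
    mul_le_mul_of_nonneg_left (cosh_le_cosh.2 (by simpa using v.norm_coe_le_norm n)) (h0 n)

section
variable {Y H : Type} [AddCommGroup Y] [Module ℝ Y] [NormedAddCommGroup H] [InnerProductSpace ℝ H]

lemma avg (A : Y →ₗ[ℝ] VV) (g : Y →ₗ[ℝ] H) {α β : ℝ} (hβ : 0 ≤ β)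
    (h : ∀ z, ‖g z‖ ^ 2 ≤ α + β * ∑' n, exp (-LL n) * cosh (A z n)) (l : List Y) :
    Summable (fun n => exp (-LL n) * exp ((l.map fun y => A y n ^ 2).sum / 2)) ∧
    ∀ z, (l.map fun y => ‖g y‖ ^ 2).sum + ‖g z‖ ^ 2 ≤
      α + β * ∑' n, exp (-LL n) * exp ((l.map fun y => A y n ^ 2).sum / 2) * cosh (A z n) := by
  induction l with
  | nil => exact ⟨by simpa using LL_sum, by simpa using h⟩
  | cons y l ih =>
    obtain ⟨hs, ih⟩ := ih
    have hs' : Summable fun n => exp (-LL n) * exp (((y :: l).map fun y => A y n ^ 2).sum / 2) := by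
      refine (hs.mul_right (exp (‖A y‖ ^ 2 / 2))).of_nonneg_of_le (fun n => by positivity) fun n => ?_
      rw [List.map_cons, List.sum_cons, add_div, exp_add, mul_comm (exp (_ ^ 2 / 2)), ← mul_assoc]
      have : A y n ^ 2 ≤ ‖A y‖ ^ 2 := by
        rw [← sq_abs]
        exact pow_le_pow_left₀ (abs_nonneg _) ((A y).norm_coe_le_norm n) 2
      gcongr
    refine ⟨hs', fun z => ?_⟩
    have p := parallelogram_law_with_norm ℝ (g z) (g y)
    have h1 := ih (z + y)
    have h2 := ih (z - y)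
    have s1 := cosh_sum hs (fun n => by positivity) (A (z + y))
    have s2 := cosh_sum hs (fun n => by positivity) (A (z - y))
    have h3 := (s1.add s2).tsum_le_tsum (fun n => (?_ : _ ≤ 2 * (exp (-LL n) *
      exp (((y :: l).map fun y => A y n ^ 2).sum / 2) * cosh (A z n))))
      ((cosh_sum hs' (fun n => by positivity) (A z)).mul_left 2)
    · rw [s1.tsum_add s2, tsum_mul_left] at h3
      rw [map_add g] at h1
      rw [map_sub g] at h2
      rw [List.map_cons, List.sum_cons]
      nlinarith [mul_le_mul_of_nonneg_left h3 hβ]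
    · simp only [map_add, map_sub, BoundedContinuousFunction.add_apply,
        BoundedContinuousFunction.sub_apply, cosh_add, cosh_sub, List.map_cons, List.sum_cons,
        add_div, exp_add]
      have := mul_le_mul_of_nonneg_left (cosh_le_exp_half_sq (A y n)) (show 0 ≤ exp (-LL n) *
        exp ((l.map fun y => A y n ^ 2).sum / 2) * cosh (A z n) by have := cosh_pos (A z n); positivity)
      nlinarith

noncomputable def K0 : ℝ := 2 + 8 * ∑' n, exp (-LL n) * exp (1 / 2)

lemma K0_pos : 0 < K0 := by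
  have : 0 ≤ ∑' n, exp (-LL n) * exp (1 / 2) := tsum_nonneg fun n => by positivity
  unfold K0; linarith

lemma summing (A : Y →ₗ[ℝ] VV) (g : Y →ₗ[ℝ] H)
    (h : ∀ z t, 0 ≤ t → (∀ n, |A z n| ≤ LL n * t) → ‖g z‖ ≤ t) (l : List Y) {σ : ℝ} (hσ : 0 < σ)
    (hl : ∀ n, (l.map fun y => A y n ^ 2).sum ≤ σ ^ 2) :
    (l.map fun y => ‖g y‖ ^ 2).sum ≤ K0 * σ ^ 2 := by
  have h1 : ∀ z, ‖g z‖ ^ 2 ≤ 2 * σ ^ 2 + 8 * σ ^ 2 * ∑' n, exp (-LL n) * cosh ((σ⁻¹ • A) z n) := by
    intro z
    have hs := cosh_sum LL_sum (fun n => (exp_pos _).le) ((σ⁻¹ • A) z)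
    set G := ∑' n, exp (-LL n) * cosh ((σ⁻¹ • A) z n)
    have G0 : 0 ≤ G := tsum_nonneg fun n => mul_nonneg (exp_pos _).le (cosh_pos _).le
    have := h z (σ * √(2 + 8 * G)) (by positivity) fun n => by
      have h2 : exp (-LL n) * cosh ((σ⁻¹ • A) z n) ≤ G :=
        hs.le_tsum n fun m _ => mul_nonneg (exp_pos _).le (cosh_pos _).le
      have h3 : A z n = σ * (σ⁻¹ • A) z n := by simp [hσ.ne']
      rw [h3, abs_mul, abs_of_pos hσ, mul_left_comm]
      rw [← cosh_abs] at h2
      generalize |(σ⁻¹ • A) z n| = s at *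
      have L1 := LL_one n
      gcongr
      by_cases hsL : s ≤ LL n
      · refine hsL.trans (le_mul_of_one_le_right (by linarith) (le_sqrt_of_sq_le (by linarith)))
      · have h4 := quadratic_le_exp_of_nonneg (show 0 ≤ s - LL n by linarith)
        have h5 : exp (s - LL n) ≤ 2 * (exp (-LL n) * cosh s) := by
          rw [sub_eq_add_neg, exp_add, cosh_eq]
          nlinarith [exp_pos (-LL n), exp_pos (-s), mul_pos (exp_pos (-LL n)) (exp_pos (-s))]
        refine le_of_sq_le_sq ?_ (by positivity)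
        rw [mul_pow, sq_sqrt (by positivity)]
        nlinarith [sq_nonneg (s - 2 * LL n), mul_nonneg G0 (show 0 ≤ LL n ^ 2 - 1 by nlinarith)]
    calc ‖g z‖ ^ 2 ≤ (σ * √(2 + 8 * G)) ^ 2 := by gcongr
      _ = _ := by rw [mul_pow, sq_sqrt (by positivity)]; ring
  obtain ⟨hs, h2⟩ := avg (σ⁻¹ • A) g (by positivity) h1 l
  have h3 := h2 0
  simp only [map_zero, norm_zero, BoundedContinuousFunction.coe_zero, Pi.zero_apply, cosh_zero,
    mul_one] at h3
  have h4 := hs.tsum_le_tsum (fun n => (?_ : _ ≤ exp (-LL n) * exp (1 / 2))) (LL_sum.mul_right _)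
  · unfold K0
    nlinarith [mul_le_mul_of_nonneg_left h4 (sq_nonneg σ)]
  · gcongr
    simp only [LinearMap.smul_apply, BoundedContinuousFunction.smul_apply, smul_eq_mul, mul_pow,
      List.sum_map_mul_left]
    rw [inv_pow, inv_mul_le_iff₀ (by positivity), mul_one]
    exact hl n

lemma pietsch (A : Y →ₗ[ℝ] VV) (g : Y →ₗ[ℝ] H)
    (h : ∀ z t, 0 ≤ t → (∀ n, |A z n| ≤ LL n * t) → ‖g z‖ ≤ t) :
    ∃ φ : VV →L[ℝ] ℝ, (∀ f : VV, (∀ n, 0 ≤ f n) → 0 ≤ φ f) ∧ ∀ y, ‖g y‖ ^ 2 ≤ φ (A y * A y) := by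
  set b : Y → VV := fun y => K0 • (A y * A y) - ‖g y‖ ^ 2 • 1 with hb
  have sc : ∀ (l : List Y) (c : ℝ), 0 ≤ c → ((l.map fun y => √c • y).map b).sum =
      c • (l.map b).sum := fun l c hc => by
    rw [List.map_map, List.smul_sum, List.map_map]
    congr 2
    funext y
    simp only [hb, Function.comp, map_smul, smul_mul_smul_comm, norm_smul, mul_pow, smul_sub,
      smul_smul, mul_self_sqrt hc, Real.norm_eq_abs, sq_abs, sq_sqrt hc, mul_comm K0]
  have hM : Convex ℝ (range fun l : List Y => (l.map b).sum) := by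
    rintro _ ⟨l, rfl⟩ _ ⟨l', rfl⟩ c c' hc hc' -
    exact ⟨(l.map fun y => √c • y) ++ l'.map fun y => √c' • y, by
      simp only [List.map_append, List.sum_append, sc _ _ hc, sc _ _ hc']⟩
  have ev : ∀ (l : List Y) n, (l.map b).sum n = K0 * (l.map fun y => A y n ^ 2).sum -
      (l.map fun y => ‖g y‖ ^ 2).sum := fun l n => by
    induction l with
    | nil => simp
    | cons y l ih =>
      rw [List.map_cons, List.sum_cons, BoundedContinuousFunction.add_apply, ih]
      simp [hb]; ring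
  obtain ⟨φ, u, h1, h2⟩ := geometric_hahn_banach_open (convex_ball (-1 : VV) 1) Metric.isOpen_ball hM
    (by
      rw [Set.disjoint_left]
      rintro _ hf ⟨l, rfl⟩
      rw [mem_ball_iff_norm, sub_neg_eq_add] at hf
      set δ := 1 - ‖(l.map b).sum + 1‖
      have hδ : 0 < δ := sub_pos.2 hf
      have h3 : ∀ n, K0 * (l.map fun y => A y n ^ 2).sum ≤ (l.map fun y => ‖g y‖ ^ 2).sum - δ :=
        fun n => by
          have := (le_abs_self _).trans (((l.map b).sum + 1).norm_coe_le_norm n)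
          simp only [BoundedContinuousFunction.add_apply, ev, BoundedContinuousFunction.coe_one,
            Pi.one_apply] at this
          simp only [δ]
          linarith
      have h4 : 0 ≤ (l.map fun y => A y 0 ^ 2).sum := List.sum_nonneg (by
        simp only [List.mem_map]; rintro _ ⟨y, -, rfl⟩; positivity)
      have K := K0_pos
      have h5 : 0 < ((l.map fun y => ‖g y‖ ^ 2).sum - δ / 2) / K0 :=
        div_pos (by nlinarith [h3 0]) K
      have := summing A g h l (sqrt_pos.2 h5) fun n => by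
        rw [sq_sqrt h5.le, le_div_iff₀ K]; linarith [h3 n]
      rw [sq_sqrt h5.le, mul_div_cancel₀ _ K.ne'] at this
      linarith)
  have u0 : u ≤ 0 := by simpa using h2 _ ⟨[], rfl⟩
  have p1 : 0 < φ 1 := by
    have := h1 _ (Metric.mem_ball_self one_pos)
    rw [map_neg] at this
    linarith
  have pb : ∀ y, 0 ≤ φ (b y) := fun y => by
    by_contra hn
    push Not at hn
    have := h2 _ ⟨_, sc [y] ((u - 1) / φ (b y)) (div_nonneg_of_nonpos (by linarith) hn.le)⟩
    simp [div_mul_cancel₀ _ hn.ne] at this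
    linarith
  have pos : ∀ f : VV, (∀ n, 0 ≤ f n) → 0 ≤ φ f := fun f hf => by
    have t0 : 0 < (‖f‖ + 1)⁻¹ := by positivity
    refine nonneg_of_mul_nonneg_right (le_of_forall_pos_le_add fun ε hε => ?_) t0
    set δ := min (1 / 2) (ε / φ 1)
    have d0 : 0 < δ := lt_min (by norm_num) (by positivity)
    have d1 : δ ≤ 1 / 2 := min_le_left _ _
    have d2 : δ * φ 1 ≤ ε := (le_div_iff₀ p1).1 (min_le_right _ _)
    have := h1 (-(δ • 1) - (‖f‖ + 1)⁻¹ • f) (by
      rw [mem_ball_iff_norm]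
      refine ((BoundedContinuousFunction.norm_le (by linarith : 0 ≤ 1 - δ / 2)).2 fun n => ?_).trans_lt
        (by linarith)
      have a1 : (‖f‖ + 1)⁻¹ * f n ≤ 1 := by
        rw [inv_mul_le_iff₀ (by positivity)]
        linarith [(le_abs_self _).trans (f.norm_coe_le_norm n)]
      have a2 := mul_nonneg t0.le (hf n)
      simp only [BoundedContinuousFunction.sub_apply, BoundedContinuousFunction.neg_apply,
        BoundedContinuousFunction.smul_apply, BoundedContinuousFunction.coe_one, Pi.one_apply,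
        smul_eq_mul, Real.norm_eq_abs, abs_le]
      constructor <;> linarith)
    simp only [map_sub, map_neg, map_smul, smul_eq_mul] at this
    linarith
  refine ⟨(K0 / φ 1) • φ, fun f hf => mul_nonneg (div_pos K0_pos p1).le (pos f hf), fun y => ?_⟩
  have := pb y
  simp only [hb, map_sub, map_smul, smul_eq_mul] at this
  simp only [ContinuousLinearMap.smul_apply, smul_eq_mul]
  rw [div_mul_eq_mul_div, le_div_iff₀ p1]
  linarith

def HV (_ : VV →L[ℝ] ℝ) : Type := VV

theorem extend [CompleteSpace H] (A : Y →ₗ[ℝ] VV) (g : Y →ₗ[ℝ] H)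
    (h : ∀ z t, 0 ≤ t → (∀ n, |A z n| ≤ LL n * t) → ‖g z‖ ≤ t) :
    ∃ F : VV →L[ℝ] H, ∀ y, F (A y) = g y := by
  obtain ⟨φ, hφ, hg⟩ := pietsch A g h
  letI : AddCommGroup (HV φ) := (inferInstance : AddCommGroup VV)
  letI : Module ℝ (HV φ) := (inferInstance : Module ℝ VV)
  letI c : PreInnerProductSpace.Core ℝ (HV φ) :=
    { inner := fun u v : VV => φ (u * v)
      conj_inner_symm := fun u v : VV => congrArg φ (mul_comm v u)
      re_inner_nonneg := fun u : VV => hφ _ fun n => mul_self_nonneg (u n)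
      add_left := fun u v w : VV => (congrArg φ (add_mul u v w)).trans (map_add φ _ _)
      smul_left := fun (u v : VV) r => (congrArg φ (smul_mul_assoc r u v)).trans (map_smul φ _ _) }
  letI : SeminormedAddCommGroup (HV φ) := InnerProductSpace.Core.toSeminormedAddCommGroup (𝕜 := ℝ)
  letI : InnerProductSpace ℝ (HV φ) := InnerProductSpace.ofCore c
  have hn : ∀ u : VV, ‖(show HV φ from u)‖ = √(φ (u * u)) := fun u => rfl
  let i0 : VV →L[ℝ] HV φ := LinearMap.mkContinuous (LinearMap.id : VV →ₗ[ℝ] VV) √‖φ‖ fun u => by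
    refine (hn u).trans_le (sqrt_le_iff.2 ⟨by positivity, ?_⟩)
    rw [mul_pow, sq_sqrt (norm_nonneg φ), sq]
    exact (le_abs_self _).trans (φ.le_of_opNorm_le_of_le le_rfl (norm_mul_le u u))
  let i1 : VV →L[ℝ] Completion (HV φ) := Completion.toComplL.comp i0
  let S := (LinearMap.range (i1.toLinearMap.comp A)).topologicalClosure
  let e : Y →ₗ[ℝ] S := (i1.toLinearMap.comp A).codRestrict S fun y =>
    Submodule.le_topologicalClosure _ ⟨y, rfl⟩
  have hd : DenseRange e := Subtype.dense_iff.2 (closure_mono (by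
    rintro _ ⟨y, rfl⟩; exact ⟨e y, ⟨y, rfl⟩, rfl⟩))
  haveI : CompleteSpace S := (Submodule.isClosed_topologicalClosure _).completeSpace_coe
  refine ⟨(g.extendOfNorm e).comp (S.orthogonalProjection.comp i1), fun y => ?_⟩
  change g.extendOfNorm e (S.orthogonalProjection (e y)) = _
  rw [Submodule.orthogonalProjection_mem_subspace_eq_self]
  refine LinearMap.extendOfNorm_eq hd ⟨1, fun x => ?_⟩ y
  rw [one_mul]
  exact (le_sqrt_of_sq_le (hg x)).trans_eq ((Completion.norm_coe (show HV φ from A x)).trans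
    (hn _)).symm

end

end Pool.Agent.H.MP_e22ce5_an
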