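import Pool.Agent.H.MP_e22ce5_an.A

namespace Pool.Agent.H.MP_e22ce5_an

open Filter Topology Set Real UniformSpace

def XS : Submodule ℝ (ℕ → VV) where
  carrier := {u | ∀ k n, u (k + 1) n = LL n * u k n}
  add_mem' := fun {u v} hu hv k n => by simp [hu k n, hv k n, mul_add]
  zero_mem' := fun k n => by simp
  smul_mem' := fun c u hu k n => by simp [hu k n, mul_left_comm]

lemma XX_closed : IsClosed (XS : Set (ℕ → VV)) := by
  change IsClosed {u : ℕ → VV | ∀ k n, u (k + 1) n = LL n * u k n}
  simp only [setOf_forall]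
  exact isClosed_iInter fun k => isClosed_iInter fun n => isClosed_eq (by fun_prop) (by fun_prop)

def XX : Type := XS

noncomputable instance : AddCommGroup XX := inferInstanceAs (AddCommGroup XS)
noncomputable instance : Module ℝ XX := inferInstanceAs (Module ℝ XS)
noncomputable instance : UniformSpace XX := inferInstanceAs (UniformSpace XS)

lemma XX_frechet : IsFrechet XX :=
  ⟨XS.toAddSubgroup.isUniformAddGroup, (inferInstance : ContinuousSMul ℝ XS),
    (inferInstance : LocallyConvexSpace ℝ XS), XX_closed.completeSpace_coe,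
    IsEmbedding.subtypeVal.metrizableSpace⟩

noncomputable def vl : XX →L[ℝ] ℕ → VV := XS.subtypeL

noncomputable def pr (k : ℕ) : XX →L[ℝ] VV := (ContinuousLinearMap.proj k).comp vl

noncomputable def pn (k : ℕ) : Seminorm ℝ XX := (normSeminorm ℝ VV).comp (pr k).toLinearMap

lemma pn_cont (k : ℕ) : Continuous (pn k) := continuous_norm.comp (pr k).continuous

lemma pr_succ (k n : ℕ) (x : XX) : pr (k + 1) x n = LL n * pr k x n := x.2 k n

lemma pr_mono (x : XX) : Monotone fun k => ‖pr k x‖ := monotone_nat_of_le_succ fun k =>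
  (BoundedContinuousFunction.norm_le (norm_nonneg _)).2 fun n => by
    refine le_trans ?_ ((pr (k + 1) x).norm_coe_le_norm n)
    rw [pr_succ, norm_mul]
    exact le_mul_of_one_le_left (norm_nonneg _) ((LL_one n).trans (le_abs_self _))

lemma bound {Y : Type} [AddCommGroup Y] [Module ℝ Y] [TopologicalSpace Y] (i : Y →ₗ[ℝ] XX)
    (hi : IsInducing i) {p : Seminorm ℝ Y} (hp : Continuous p) :
    ∃ (k : ℕ) (C : ℝ), 0 ≤ C ∧ ∀ y, p y ≤ C * ‖pr k (i y)‖ := by
  obtain ⟨s, C, -, h⟩ := Seminorm.bound_comp_of_isInducing hp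
    (withSeminorms_pi fun _ : ℕ => norm_withSeminorms ℝ VV) (f := vl.toLinearMap.comp i)
    (IsInducing.subtypeVal.comp hi)
  refine ⟨s.sup (·.1), C, C.2, fun y => (h y).trans ?_⟩
  exact mul_le_mul_of_nonneg_left (Seminorm.finset_sup_apply_le (norm_nonneg _) fun j hj =>
    pr_mono (i y) (Finset.le_sup (f := (·.1)) hj)) C.2

lemma ext_pr {Y : Type} [AddCommGroup Y] [Module ℝ Y] [TopologicalSpace Y] (i : Y →ₗ[ℝ] XX)
    (hi : IsInducing i) (g : Y →L[ℝ] L2) :
    ∃ (k : ℕ) (F : VV →L[ℝ] L2), ∀ y, F (pr k (i y)) = g y := by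
  obtain ⟨k, C, hC, h⟩ := bound i hi (p := (normSeminorm ℝ L2).comp g.toLinearMap)
    (continuous_norm.comp g.continuous)
  obtain ⟨F, hF⟩ := extend (C • (pr (k + 1)).toLinearMap.comp i) g.toLinearMap fun z t ht hz => by
    refine (h z).trans ?_
    rw [← abs_of_nonneg hC, ← Real.norm_eq_abs, ← norm_smul]
    refine (BoundedContinuousFunction.norm_le ht).2 fun n => ?_
    have h1 : |C * (LL n * pr k (i z) n)| ≤ LL n * t := by rw [← pr_succ]; exact hz n
    have h2 : 0 < LL n := one_pos.trans_le (LL_one n)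
    rw [mul_left_comm, abs_mul, abs_of_pos h2] at h1
    exact le_of_mul_le_mul_left h1 h2
  exact ⟨k + 1, C • F, fun y => by simpa using hF y⟩

lemma XX_spade : Spade XX := by
  refine ⟨fun Y g => ?_, fun W _ _ _ ⟨h1, h2, h3, _⟩ j hj g => ?_⟩
  · obtain ⟨k, F, h⟩ := ext_pr (Y := Y) Y.subtype IsInducing.subtypeVal g
    exact ⟨F.comp (pr k), h⟩
  · obtain ⟨k, F, h⟩ := ext_pr (Y := XX) LinearMap.id IsInducing.id g
    obtain ⟨q, hq, hp⟩ := Seminorm.exists_le_comp_of_isInducing (pn_cont k)
      (f := j.toLinearMap) hj.isInducing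
    have e := fun n : ℕ => Module.Dual.exists_extension_of_le_seminorm_real
      (LinearMap.range j.toLinearMap) ((((BoundedContinuousFunction.evalCLM ℝ n).comp
        (pr k)).toLinearMap).comp (LinearEquiv.ofInjective j.toLinearMap hj.injective).symm.toLinearMap)
      (p := q) (by
        rintro ⟨_, x, rfl⟩
        have := (LinearEquiv.ofInjective j.toLinearMap hj.injective).symm_apply_apply x
        refine le_trans (le_of_eq (congrArg (fun z => pr k z n) this)) ?_
        exact ((le_abs_self _).trans ((pr k x).norm_coe_le_norm n)).trans (hp x))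
    choose l hl hl' using e
    let R : W →ₗ[ℝ] VV :=
      { toFun := fun w => BoundedContinuousFunction.ofNormedAddCommGroupDiscrete (fun n => l n w)
          (q w) fun n => hl' n w
        map_add' := fun v w => BoundedContinuousFunction.ext fun n => (l n).map_add v w
        map_smul' := fun c w => BoundedContinuousFunction.ext fun n => (l n).map_smul c w }
    have hR : Continuous R := continuous_of_tendsto_nhds_zero R (squeeze_zero_norm
      (fun w => (BoundedContinuousFunction.norm_le (apply_nonneg q w)).2 fun n => hl' n w)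
      (by simpa using hq.tendsto 0))
    refine ⟨F.comp ⟨R, hR⟩, fun x => Eq.trans (congrArg F ?_) (h x)⟩
    refine BoundedContinuousFunction.ext fun n => (hl n ⟨_, x, rfl⟩).trans ?_
    exact congrArg (fun z => pr k z n)
      ((LinearEquiv.ofInjective j.toLinearMap hj.injective).symm_apply_apply x)

noncomputable def Eb (m : ℕ) : XX :=
  ⟨fun k => BoundedContinuousFunction.ofNormedAddCommGroupDiscrete
    (fun n => if n = m then LL m ^ k else 0) ‖LL m ^ k‖ fun n => by split_ifs <;> simp,
    fun k n => by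
      change (if n = m then LL m ^ (k + 1) else 0) = LL n * if n = m then LL m ^ k else 0
      split_ifs with h
      · rw [h, pow_succ']
      · simp⟩

lemma pr_Eb (k m n : ℕ) : pr k (Eb m) n = if n = m then LL m ^ k else 0 := rfl

lemma not_sum (k : ℕ) : ¬ Summable fun m => (LL m ^ k)⁻¹ := by
  intro h
  have h1 : ∀ᶠ m : ℕ in atTop, ‖log (m + 2) ^ k‖ ≤ 1 * ‖id ((m : ℝ) + 2)‖ :=
    (tendsto_atTop_add_const_right _ 2 tendsto_natCast_atTop_atTop).eventually
      (isLittleO_pow_log_id_atTop.bound one_pos)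
  refine not_summable_natCast_inv ((summable_nat_add_iff 2).1
    ((h.mul_left (2 ^ k)).of_norm_bounded_eventually_nat ?_))
  filter_upwards [h1] with m hm
  have h2 : 0 < log (m + 2) := by linarith [LL_one m, show LL m = 2 * log (m + 2) from rfl]
  rw [LL, mul_pow, mul_inv, ← mul_assoc, mul_inv_cancel₀ (by positivity), one_mul,
    Real.norm_of_nonneg (by positivity)]
  rw [Real.norm_of_nonneg (by positivity), one_mul, id, Real.norm_of_nonneg (by positivity)] at hm
  push_cast
  gcongr

lemma XX_not : ¬ Nuclear XX := by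
  intro h
  obtain ⟨q, hq, -, u, hu, f, y, hs, hf⟩ := h (pn 0) (pn_cont 0)
  obtain ⟨k, C, hC, hb⟩ := bound (Y := XX) LinearMap.id IsInducing.id hq
  have ex : ∀ m, ∃ χ : Completion (SN (pn 0)) →L[ℝ] ℝ, (∀ x, χ (can (pn 0) x) = pr 0 x m) ∧
      ∀ z, ‖χ z‖ ≤ 1 * ‖z‖ := fun m => by
    let l : SN (pn 0) →ₗ[ℝ] ℝ := ((BoundedContinuousFunction.evalCLM ℝ m).comp (pr 0)).toLinearMap
    have hd : DenseRange (Completion.toComplL (𝕜 := ℝ) (E := SN (pn 0))).toLinearMap :=
      Completion.denseRange_coe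
    have hn : ∀ x, ‖l x‖ ≤ 1 * ‖(Completion.toComplL (𝕜 := ℝ) (E := SN (pn 0))).toLinearMap x‖ :=
      fun x => by
        rw [one_mul]
        exact ((pr 0 x).norm_coe_le_norm m).trans_eq (Completion.norm_coe x).symm
    exact ⟨_, LinearMap.extendOfNorm_eq hd ⟨1, hn⟩, LinearMap.norm_extendOfNorm_apply_le hd 1 hn⟩
  choose χ h1 h2 using ex
  let cq : XX →ₗ[ℝ] Completion (SN q) := (Completion.toComplL (𝕜 := ℝ) (E := SN q)).toLinearMap
  have L0 : ∀ m, 0 < LL m ^ k := fun m => pow_pos (one_pos.trans_le (LL_one m)) k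
  refine not_sum k (summable_of_sum_le (fun m => (inv_pos.2 (L0 m)).le)
    (c := ∑' n, C * (‖f n‖ * ‖y n‖)) fun F => ?_)
  have a1 : HasSum (fun n => ∑ m ∈ F, (LL m ^ k)⁻¹ * (f n (cq (Eb m)) * χ m (y n)))
      (∑ m ∈ F, (LL m ^ k)⁻¹) := hasSum_sum fun m _ => by
    have := ((χ m).hasSum (hf (can q (Eb m)))).mul_left (LL m ^ k)⁻¹
    rw [hu, h1, pr_Eb] at this
    simp only [if_true, pow_zero, mul_one, map_smul, smul_eq_mul] at this
    exact this
  refine hasSum_le (fun n => ?_) a1 (hs.mul_left C).hasSum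
  set x : XX := ∑ m ∈ F, ((LL m ^ k)⁻¹ * χ m (y n)) • Eb m with hx
  have a2 : ‖pr k x‖ ≤ ‖y n‖ := (BoundedContinuousFunction.norm_le (norm_nonneg _)).2 fun r => by
    simp only [hx, map_sum, map_smul, BoundedContinuousFunction.sum_apply,
      BoundedContinuousFunction.smul_apply, pr_Eb, smul_eq_mul, mul_ite, mul_zero,
      Finset.sum_ite_eq]
    split_ifs
    · rw [mul_right_comm, inv_mul_cancel₀ (L0 r).ne']
      simpa using h2 r (y n)
    · simp
  calc _ = f n (cq x) := by
        simp only [hx, map_sum, map_smul, smul_eq_mul]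
        exact Finset.sum_congr rfl fun m _ => by ring
    _ ≤ ‖f n‖ * ‖cq x‖ := (le_abs_self _).trans ((f n).le_opNorm _)
    _ ≤ ‖f n‖ * (C * ‖y n‖) := by
        gcongr
        exact (Completion.norm_coe (show SN q from x)).trans_le ((hb x).trans (by gcongr; exact a2))
    _ = _ := by ring

end Pool.Agent.H.MP_e22ce5_an
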