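import Mathlib

namespace Pool.Agent.H.MP_e22ce5_an

open Topology UniformSpace

/-- real Fréchet space -/
def IsFrechet (X : Type) [AddCommGroup X] [Module ℝ X] [UniformSpace X] : Prop :=
  IsUniformAddGroup X ∧ ContinuousSMul ℝ X ∧ LocallyConvexSpace ℝ X ∧ CompleteSpace X ∧
    TopologicalSpace.MetrizableSpace X

abbrev L2 := lp (fun _ : ℕ => ℝ) 2

variable (X : Type) [AddCommGroup X] [Module ℝ X]

/-- every operator from a subspace of `X` to `Z` extends to `X` -/
def ExtSub [TopologicalSpace X] (Z : Type) [NormedAddCommGroup Z] [NormedSpace ℝ Z] : Prop :=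
  ∀ (Y : Submodule ℝ X) (g : Y →L[ℝ] Z), ∃ f : X →L[ℝ] Z, ∀ y : Y, f y = g y

/-- every operator from `X` to `Z` extends to every Fréchet superspace -/
def ExtSup [TopologicalSpace X] (Z : Type) [NormedAddCommGroup Z] [NormedSpace ℝ Z] : Prop :=
  ∀ (W : Type) [AddCommGroup W] [Module ℝ W] [UniformSpace W], IsFrechet W →
    ∀ j : X →L[ℝ] W, IsEmbedding j → ∀ g : X →L[ℝ] Z, ∃ f : W →L[ℝ] Z, ∀ x, f (j x) = g x

/-- both extension properties for operators into `ℓ₂` -/
def Spade [UniformSpace X] : Prop := ExtSub X L2 ∧ ExtSup X L2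

variable {X}

/-- `X` with the seminorm `p` -/
def SN (_ : Seminorm ℝ X) : Type := X

noncomputable instance (p : Seminorm ℝ X) : SeminormedAddCommGroup (SN p) :=
  p.toAddGroupSeminorm.toSeminormedAddCommGroup

noncomputable instance (p : Seminorm ℝ X) : NormedSpace ℝ (SN p) :=
  { (inferInstance : Module ℝ X) with norm_smul_le := fun a b => (map_smul_eq_mul p a b).le }

/-- the canonical map of `X` to its completion for `p` -/
noncomputable def can (p : Seminorm ℝ X) (x : X) : Completion (SN p) := ((show SN p from x) : _)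

/-- nuclear operator -/
def NucOp {E F : Type} [NormedAddCommGroup E] [NormedSpace ℝ E] [NormedAddCommGroup F]
    [NormedSpace ℝ F] (u : E →L[ℝ] F) : Prop :=
  ∃ (f : ℕ → E →L[ℝ] ℝ) (y : ℕ → F), Summable (fun n => ‖f n‖ * ‖y n‖) ∧
    ∀ x, HasSum (fun n => f n x • y n) (u x)

/-- a nuclear operator carries `a x` to `b x` for all `x` -/
def NucVia {E F : Type} [NormedAddCommGroup E] [NormedSpace ℝ E] [NormedAddCommGroup F]
    [NormedSpace ℝ F] (a : X → E) (b : X → F) : Prop :=
  ∃ u : E →L[ℝ] F, (∀ x, u (a x) = b x) ∧ NucOp u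

variable (X) in
/-- nuclear space -/
def Nuclear [TopologicalSpace X] : Prop :=
  ∀ p : Seminorm ℝ X, Continuous p → ∃ q : Seminorm ℝ X, Continuous q ∧ p ≤ q ∧
    NucVia (can q) (can p)

end Pool.Agent.H.MP_e22ce5_an
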